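import Mathlib

set_option autoImplicit false

/-! Project MC, piece (FEW): few functions have few values. -/

namespace Pool.Agent.J4H55.MC

open Finset

theorem pow_self_le (h : ℕ) : h ^ h ≤ 4 ^ h * h.factorial := by
  have h1 : ((h : ℝ)) ^ h / (h.factorial : ℝ) ≤ Real.exp h := Real.pow_div_factorial_le_exp (h : ℝ) (by positivity) h
  have h2 : Real.exp h ≤ 4 ^ h := by
    rw [show (h : ℝ) = (h : ℝ) * 1 by ring, Real.exp_nat_mul]
    exact pow_le_pow_left₀ (Real.exp_pos _).le (by have := Real.exp_one_lt_d9; linarith) h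
  have h3 : (0 : ℝ) < (h.factorial : ℝ) := by exact_mod_cast Nat.factorial_pos h
  rw [div_le_iff₀ h3] at h1
  have h4 : ((h : ℝ)) ^ h ≤ 4 ^ h * (h.factorial : ℝ) := h1.trans (mul_le_mul_of_nonneg_right h2 h3.le)
  exact_mod_cast h4

theorem few (α β : Type) [Fintype α] [Fintype β] [DecidableEq α] [DecidableEq β]
    (hab : 8 * Fintype.card α ≤ Fintype.card β) :
    (univ.filter (fun f : α → β => 2 * (univ.image f).card ≤ Fintype.card α)).card *
      2 ^ Fintype.card α ≤ Fintype.card β ^ Fintype.card α := by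
  obtain ⟨L, hL⟩ : ∃ L, Fintype.card α = L := ⟨_, rfl⟩
  obtain ⟨K, hK⟩ : ∃ K, Fintype.card β = K := ⟨_, rfl⟩
  obtain ⟨h, hh⟩ : ∃ h, h = L / 2 := ⟨_, rfl⟩
  rw [hL, hK] at hab ⊢
  have h2 : 2 * h ≤ L := by omega
  have hsub : univ.filter (fun f : α → β => 2 * (univ.image f).card ≤ L) ⊆
      (powersetCard h (univ : Finset β)).biUnion (fun B => Fintype.piFinset (fun _ : α => B)) := by
    intro f hf
    rw [mem_filter] at hf
    have h3 : (univ.image f).card ≤ h := by omega
    obtain ⟨B, hB1, hB2⟩ := Finset.exists_superset_card_eq h3 (by rw [hK]; omega)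
    rw [mem_biUnion]
    refine ⟨B, ?_, ?_⟩
    · rw [mem_powersetCard]
      exact ⟨subset_univ _, hB2⟩
    · rw [Fintype.mem_piFinset]
      intro a
      exact hB1 (mem_image_of_mem f (mem_univ a))
  have hcard : (univ.filter (fun f : α → β => 2 * (univ.image f).card ≤ L)).card ≤ K.choose h * h ^ L := by
    refine (card_le_card hsub).trans (card_biUnion_le.trans ?_)
    rw [sum_congr rfl (g := fun _ => h ^ L)]
    · rw [sum_const, card_powersetCard, card_univ, hK, smul_eq_mul]
    · intro B hB
      rw [mem_powersetCard] at hB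
      rw [Fintype.card_piFinset, prod_const, hB.2, card_univ, hL]
  refine (Nat.mul_le_mul_right _ hcard).trans ?_
  -- the inequality
  have hf : 0 < h.factorial := Nat.factorial_pos h
  refine Nat.le_of_mul_le_mul_left ?_ hf
  have e1 : h.factorial * K.choose h ≤ K ^ h := by
    rw [← Nat.descFactorial_eq_factorial_mul_choose]
    exact Nat.descFactorial_le_pow K h
  have e2 : (2 * h) ^ (2 * h) ≤ K ^ h * h.factorial := by
    calc (2 * h) ^ (2 * h) = (4 * h) ^ h * h ^ h := by
          rw [pow_mul, ← mul_pow]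
          congr 1
          ring
      _ ≤ (4 * h) ^ h * (4 ^ h * h.factorial) := Nat.mul_le_mul_left _ (pow_self_le h)
      _ = (16 * h) ^ h * h.factorial := by
          rw [← mul_assoc, ← mul_pow]
          congr 2
          ring
      _ ≤ K ^ h * h.factorial := Nat.mul_le_mul_right _ (Nat.pow_le_pow_left (by omega) h)
  have e3 : (2 * h) ^ (L - 2 * h) ≤ K ^ (L - 2 * h) := Nat.pow_le_pow_left (by omega) _
  have e4 : (2 * h) ^ L ≤ K ^ (L - h) * h.factorial := by
    calc (2 * h) ^ L = (2 * h) ^ (2 * h) * (2 * h) ^ (L - 2 * h) := by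
          rw [← pow_add]
          congr 1
          omega
      _ ≤ (K ^ h * h.factorial) * K ^ (L - 2 * h) := Nat.mul_le_mul e2 e3
      _ = K ^ (L - h) * h.factorial := by
          rw [mul_right_comm, ← pow_add]
          congr 2
          omega
  calc h.factorial * (K.choose h * h ^ L * 2 ^ L) = (h.factorial * K.choose h) * (2 * h) ^ L := by
        rw [mul_pow]; ring
    _ ≤ K ^ h * (K ^ (L - h) * h.factorial) := Nat.mul_le_mul e1 e4
    _ = h.factorial * K ^ L := by
        rw [← mul_assoc, ← pow_add, mul_comm]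
        congr 2
        omega

end Pool.Agent.J4H55.MC
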