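import Pool.Agent.J4H64.MC.Def
import Pool.Agent.J4H55.MC.FewCore

set_option autoImplicit false

namespace Pool.Agent.J4H55.MC

theorem t_FEW : Pool.Agent.J4H64.MC.S_FEW := fun α β => few α β

end Pool.Agent.J4H55.MC
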