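import Pool.Agent.J4H64.MC.Def

set_option autoImplicit false

/-! Project MC, piece (ROWS): random rows are independent. -/

namespace Pool.Agent.J4H55.MC

open Finset Pool.Agent.J4H64.MC

/-- a zero sum makes all fibres even -/
theorem fib_even {ρ : Type} {t K : ℕ} (R : ρ → Fin t → Fin K) (S : Finset ρ) (h : ∑ r ∈ S, rvec R r = 0)
    (v : Fin K) : 2 ∣ (univ.filter (fun p : S × Fin t => R p.1 p.2 = v)).card := by
  have h1 := congrFun h v
  rw [Finset.sum_apply, Pi.zero_apply] at h1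
  have h2 : ∀ r : ρ, rvec R r v = ∑ j : Fin t, if R r j = v then (1 : ZMod 2) else 0 := by
    intro r
    unfold rvec
    rw [Finset.sum_apply]
    refine sum_congr rfl fun j _ => ?_
    rw [Pi.single_apply]
    by_cases hv : R r j = v
    · rw [if_pos hv, if_pos hv.symm]
    · rw [if_neg hv, if_neg (fun h => hv h.symm)]
  rw [sum_congr rfl (fun r _ => h2 r)] at h1
  have h3 : (((univ.filter (fun p : S × Fin t => R p.1 p.2 = v)).card : ℕ) : ZMod 2) = 0 := by
    rw [card_filter]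
    push_cast
    rw [Fintype.sum_prod_type, Finset.sum_coe_sort S (fun r => ∑ j : Fin t, if R r j = v then (1 : ZMod 2) else 0)]
    exact h1
  exact (ZMod.natCast_eq_zero_iff _ 2).1 h3

/-- a zero sum makes the image small -/
theorem image_small {ρ : Type} {t K : ℕ} (R : ρ → Fin t → Fin K) (S : Finset ρ) (h : ∑ r ∈ S, rvec R r = 0) :
    2 * (univ.image (fun p : S × Fin t => R p.1 p.2)).card ≤ Fintype.card (S × Fin t) := by
  have h1 : Fintype.card (S × Fin t) = ∑ v ∈ univ.image (fun p : S × Fin t => R p.1 p.2),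
      (univ.filter (fun p : S × Fin t => R p.1 p.2 = v)).card := by
    rw [← card_univ]
    exact card_eq_sum_card_fiberwise (fun p _ => mem_image_of_mem _ (mem_univ p))
  rw [h1, mul_comm, ← smul_eq_mul, ← sum_const]
  refine sum_le_sum fun v hv => ?_
  obtain ⟨p, _, hp⟩ := mem_image.1 hv
  refine Nat.le_of_dvd ?_ (fib_even R S h v)
  exact card_pos.2 ⟨p, mem_filter.2 ⟨mem_univ _, hp⟩⟩

open Classical in
theorem bad_card (hF : S_FEW) {ρ : Type} [Fintype ρ] {t K : ℕ} (S : Finset ρ) (hS : 8 * (t * S.card) ≤ K) :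
    (univ.filter (fun R : ρ → Fin t → Fin K => ∑ r ∈ S, rvec R r = 0)).card * 2 ^ (t * S.card) ≤
      K ^ (t * Fintype.card ρ) := by
  have hc : Fintype.card (S × Fin t) = t * S.card := by
    rw [Fintype.card_prod, Fintype.card_coe, Fintype.card_fin, mul_comm]
  have h1 := hF (S × Fin t) (Fin K) (by rw [hc, Fintype.card_fin]; exact hS)
  rw [hc, Fintype.card_fin] at h1
  have h2 : (univ.filter (fun R : ρ → Fin t → Fin K => ∑ r ∈ S, rvec R r = 0)).card ≤
      ((univ.filter (fun f : S × Fin t → Fin K => 2 * (univ.image f).card ≤ t * S.card)) ×ˢ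
        (univ : Finset (((Sᶜ : Finset ρ) × Fin t) → Fin K))).card := by
    refine card_le_card_of_injOn (fun R => (fun p => R p.1 p.2, fun p => R p.1 p.2)) ?_ ?_
    · intro R hR
      rw [Finset.mem_coe, mem_filter] at hR
      rw [Finset.mem_coe, mem_product, mem_filter]
      refine ⟨⟨mem_univ _, ?_⟩, mem_univ _⟩
      rw [← hc]
      exact image_small R S hR.2
    · intro R _ R' _ hRR
      rw [Prod.mk.injEq] at hRR
      funext r j
      by_cases hr : r ∈ S
      · exact congrFun hRR.1 (⟨r, hr⟩, j)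
      · exact congrFun hRR.2 (⟨r, mem_compl.2 hr⟩, j)
  rw [card_product, card_univ, Fintype.card_fun, Fintype.card_fin, Fintype.card_prod, Fintype.card_coe, Fintype.card_fin,
    card_compl] at h2
  calc _ ≤ _ := Nat.mul_le_mul_right _ h2
    _ = ((univ.filter (fun f : S × Fin t → Fin K => 2 * (univ.image f).card ≤ t * S.card)).card *
        2 ^ (t * S.card)) * K ^ ((Fintype.card ρ - S.card) * t) := by ring
    _ ≤ K ^ (t * S.card) * K ^ ((Fintype.card ρ - S.card) * t) := Nat.mul_le_mul_right _ h1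
    _ = K ^ (t * Fintype.card ρ) := by
        rw [← pow_add]
        congr 1
        have h3 : S.card ≤ Fintype.card ρ := card_le_univ S
        obtain ⟨d, hd⟩ := Nat.exists_eq_add_of_le h3
        rw [hd, Nat.add_sub_cancel_left]
        ring

theorem t_ROWS : S_FEW → S_ROWS := by
  classical
  intro hF ρ _ t K hK hρ
  by_contra hcon
  push Not at hcon
  have hK0 : (0 : ℝ) < (K : ℝ) := by exact_mod_cast hK
  obtain ⟨Ω, hΩ⟩ : ∃ Ω : ℝ, Ω = (K : ℝ) ^ (t * Fintype.card ρ) := ⟨_, rfl⟩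
  have hΩ0 : 0 < Ω := by rw [hΩ]; positivity
  have hcov : (univ : Finset (ρ → Fin t → Fin K)) ⊆
      ((univ : Finset (Finset ρ)).filter (fun S => S.Nonempty ∧ 8 * (t * S.card) ≤ K)).biUnion
        (fun S => univ.filter (fun R : ρ → Fin t → Fin K => ∑ r ∈ S, rvec R r = 0)) := by
    intro R _
    have h1 := hcon R
    unfold Indep at h1
    push Not at h1
    obtain ⟨S, hS1, hS2, hS3⟩ := h1
    rw [mem_biUnion]
    exact ⟨S, mem_filter.2 ⟨mem_univ _, hS1, hS2⟩, mem_filter.2 ⟨mem_univ _, hS3⟩⟩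
  have h1 : Ω ≤ ∑ S ∈ (univ : Finset (Finset ρ)).filter (fun S => S.Nonempty ∧ 8 * (t * S.card) ≤ K),
      Ω * ((1 / 2 ^ t : ℝ)) ^ S.card := by
    have h2 := (card_le_card hcov).trans card_biUnion_le
    rw [card_univ, Fintype.card_fun, Fintype.card_fun, Fintype.card_fin, Fintype.card_fin, ← pow_mul] at h2
    have h3 : Ω ≤ ∑ S ∈ (univ : Finset (Finset ρ)).filter (fun S => S.Nonempty ∧ 8 * (t * S.card) ≤ K),
        (((univ.filter (fun R : ρ → Fin t → Fin K => ∑ r ∈ S, rvec R r = 0)).card : ℕ) : ℝ) := by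
      rw [hΩ]
      exact_mod_cast h2
    refine h3.trans (sum_le_sum fun S hS => ?_)
    have h4 := bad_card hF S (mem_filter.1 hS).2.2
    have h5 : (((univ.filter (fun R : ρ → Fin t → Fin K => ∑ r ∈ S, rvec R r = 0)).card : ℕ) : ℝ) * 2 ^ (t * S.card) ≤ Ω := by
      rw [hΩ]
      exact_mod_cast h4
    rw [one_div, inv_pow, ← pow_mul, ← div_eq_mul_inv, le_div_iff₀ (by positivity)]
    exact h5
  have h2 : ∑ S ∈ (univ : Finset (Finset ρ)).filter (fun S => S.Nonempty ∧ 8 * (t * S.card) ≤ K),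
      Ω * ((1 / 2 ^ t : ℝ)) ^ S.card ≤ Ω * ((1 + 1 / 2 ^ t) ^ Fintype.card ρ - 1) := by
    have h3 : ∑ S ∈ (univ : Finset (Finset ρ)).filter (fun S => S.Nonempty ∧ 8 * (t * S.card) ≤ K),
        Ω * ((1 / 2 ^ t : ℝ)) ^ S.card ≤ ∑ S ∈ (univ : Finset (Finset ρ)).erase ∅, Ω * ((1 / 2 ^ t : ℝ)) ^ S.card := by
      refine sum_le_sum_of_subset_of_nonneg ?_ (fun S _ _ => by positivity)
      intro S hS
      rw [mem_filter] at hS
      exact mem_erase.2 ⟨hS.2.1.ne_empty, mem_univ _⟩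
    refine h3.trans (le_of_eq ?_)
    have h4 := Fintype.sum_pow_mul_eq_add_pow ρ (1 / 2 ^ t : ℝ) 1
    simp only [one_pow, mul_one] at h4
    rw [← add_sum_erase _ _ (mem_univ (∅ : Finset ρ)), card_empty, pow_zero] at h4
    rw [← mul_sum]
    congr 1
    rw [add_comm (1 : ℝ) (1 / 2 ^ t)]
    linarith
  have h3 : (1 + 1 / 2 ^ t : ℝ) ^ Fintype.card ρ ≤ 4 / 3 := by
    have e1 : (1 + 1 / 2 ^ t : ℝ) ≤ Real.exp (1 / 2 ^ t) := by
      have := Real.add_one_le_exp (1 / 2 ^ t : ℝ)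
      linarith
    have e2 : (1 + 1 / 2 ^ t : ℝ) ^ Fintype.card ρ ≤ Real.exp ((Fintype.card ρ : ℝ) * (1 / 2 ^ t)) := by
      rw [Real.exp_nat_mul]
      exact pow_le_pow_left₀ (by positivity) e1 _
    have e3 : (Fintype.card ρ : ℝ) * (1 / 2 ^ t) ≤ 1 / 4 := by
      have h5 : (4 : ℝ) * Fintype.card ρ ≤ 2 ^ t := by exact_mod_cast hρ
      rw [mul_one_div, div_le_iff₀ (by positivity)]
      linarith
    have e4 : Real.exp (1 / 4) ≤ 4 / 3 := by
      have h5 := Real.add_one_le_exp (-(1 / 4) : ℝ)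
      have h6 : Real.exp (1 / 4) * Real.exp (-(1 / 4)) = 1 := by rw [← Real.exp_add]; norm_num
      have h7 := Real.exp_pos (1 / 4)
      nlinarith
    exact e2.trans ((Real.exp_le_exp.2 e3).trans e4)
  have h4 := h1.trans h2
  nlinarith

end Pool.Agent.J4H55.MC
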